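import Mathlib

/-!
# MP_ea4033_co: trivial recolouring implies dismantlability for binary matroids
-/

set_option autoImplicit false

namespace Pool.Agent.Results.MP_ea4033_co.TrivialRecolouring

/-- A simple binary matroid, given by a representation over `ZMod 2`: the elements are the columns
of a matrix, and the columns are pairwise distinct (a zero column is allowed). -/
structure BinMat where
  /-- the elements -/
  E : Type
  /-- the rows of the matrix -/
  R : Type
  finE : Finite E
  finR : Finite R
  /-- the columns -/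
  col : E → (R → ZMod 2)
  inj : Function.Injective col

attribute [instance] BinMat.finE BinMat.finR

/-- A circuit is a minimal non-empty set of elements whose columns sum to zero. -/
def IsCircuit (M : BinMat) (Z : Finset M.E) : Prop :=
  Minimal (fun Z : Finset M.E => Z.Nonempty ∧ ∑ e ∈ Z, M.col e = 0) Z

/-- A cocircuit is a minimal non-empty support of a vector of the row space. -/
def IsCocircuit (M : BinMat) (C : Set M.E) : Prop :=
  Minimal (fun C : Set M.E => C.Nonempty ∧
    ∃ h : (M.R → ZMod 2) →ₗ[ZMod 2] ZMod 2, C = {e | h (M.col e) = 1}) C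

/-- A homomorphism of binary matroids maps every circuit to a set of columns (with multiplicity)
with sum zero. -/
def IsHom (M N : BinMat) (τ : M.E → N.E) : Prop :=
  ∀ Z, IsCircuit M Z → ∑ e ∈ Z, N.col (τ e) = 0

theorem add_self {R : Type} (x : R → ZMod 2) : x + x = 0 := by
  ext i
  exact CharTwo.add_self_eq_zero (x i)

/-- The colouring graph: two distinct homomorphisms are adjacent if they differ by adding a vector
`c` on a cocircuit. -/
def Col (M N : BinMat) : SimpleGraph {τ : M.E → N.E // IsHom M N τ} where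
  Adj τ τ' := τ ≠ τ' ∧ ∃ C, IsCocircuit M C ∧ ∃ c,
    (∀ e ∈ C, N.col (τ'.1 e) = N.col (τ.1 e) + c) ∧ ∀ e ∉ C, τ'.1 e = τ.1 e
  symm := ⟨by
    rintro τ τ' ⟨hne, C, hC, c, h1, h2⟩
    refine ⟨hne.symm, C, hC, c, fun e he => ?_, fun e he => (h2 e he).symm⟩
    rw [h1 e he, add_assoc, add_self, add_zero]⟩
  loopless := ⟨fun τ h => h.1 rfl⟩

/-- The recolouring problem of `N` is trivial: for every binary matroid `M`, any two homomorphisms
from `M` to `N` are joined by a path in the colouring graph. -/
def RecolTrivial (N : BinMat) : Prop :=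
  ∀ (M : BinMat) (τ τ' : {τ : M.E → N.E // IsHom M N τ}), (Col M N).Reachable τ τ'

/-- the restriction to a set of elements -/
def restrict (N : BinMat) (X : Set N.E) : BinMat where
  E := X
  R := N.R
  finE := inferInstance
  finR := inferInstance
  col e := N.col e
  inj _ _ h := Subtype.ext (N.inj h)

/-- A dismantling retraction: a homomorphism `r` with `r ∘ r = r` that is adjacent to the identity
in `Col(N, N)`. -/
def IsDismantling (N : BinMat) (r : N.E → N.E) : Prop :=
  (∀ f, r (r f) = r f) ∧
    ∃ (hr : IsHom N N r) (hid : IsHom N N id), (Col N N).Adj ⟨id, hid⟩ ⟨r, hr⟩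

/-- isomorphism: a bijection of the elements that preserves circuits -/
def Iso (N N' : BinMat) : Prop :=
  ∃ e : N.E ≃ N'.E, ∀ Z : Finset N.E, IsCircuit N Z ↔ IsCircuit N' (Z.map e.toEmbedding)

/-- `N` dismantles to `N'`: a sequence of dismantling retractions, each applied to the image of the
previous one, maps `N` onto a copy of `N'`. -/
inductive Dismantles : BinMat → BinMat → Prop
  | iso {N N' : BinMat} : Iso N N' → Dismantles N N'
  | step {N N' : BinMat} (r : N.E → N.E) : IsDismantling N r →
      Dismantles (restrict N (Set.range r)) N' → Dismantles N N'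

/-- the loop: one element with a zero column -/
def loop : BinMat where
  E := Unit
  R := Unit
  finE := inferInstance
  finR := inferInstance
  col _ := 0
  inj _ _ _ := rfl

/-- the edge: one element with a nonzero column -/
def edge : BinMat where
  E := Unit
  R := Unit
  finE := inferInstance
  finR := inferInstance
  col _ := 1
  inj _ _ _ := rfl

/-! ### Homomorphisms are linear -/

variable {M N : BinMat}

theorem circuit_sum {Z : Finset M.E} (hZ : IsCircuit M Z) : ∑ e ∈ Z, M.col e = 0 := hZ.prop.2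

/-- A homomorphism preserves all the zero sums. -/
theorem hom_sum {τ : M.E → N.E} (hτ : IsHom M N τ) (Z : Finset M.E)
    (hZ : ∑ e ∈ Z, M.col e = 0) : ∑ e ∈ Z, N.col (τ e) = 0 := by
  classical
  induction hn : Z.card using Nat.strong_induction_on generalizing Z with
  | _ n ih =>
    by_cases hne : Z.Nonempty
    · -- a minimal nonempty subset with zero sum
      obtain ⟨Y, hYZ, hY⟩ : ∃ Y ⊆ Z, IsCircuit M Y := by
        obtain ⟨Y, hYle, hY⟩ := exists_minimal_le_of_wellFoundedLT
          (fun Z : Finset M.E => Z.Nonempty ∧ ∑ e ∈ Z, M.col e = 0) Z ⟨hne, hZ⟩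
        exact ⟨Y, hYle, hY⟩
      have h1 : ∑ e ∈ Z \ Y, M.col e = 0 := by
        have := Finset.sum_sdiff hYZ (f := M.col)
        rw [circuit_sum hY, hZ, add_zero] at this
        exact this
      have h2 : (Z \ Y).card < n := by
        rw [← hn]
        apply Finset.card_lt_card
        refine ⟨Finset.sdiff_subset, fun h => ?_⟩
        obtain ⟨y, hy⟩ := hY.prop.1
        exact (Finset.mem_sdiff.1 (h (hYZ hy))).2 hy
      have h3 := ih _ h2 (Z \ Y) h1 rfl
      rw [← Finset.sum_sdiff hYZ, h3, hτ Y hY, add_zero]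
    · rw [Finset.not_nonempty_iff_eq_empty.1 hne, Finset.sum_empty]

/-- A homomorphism is induced by a linear map. -/
theorem hom_linear {τ : M.E → N.E} (hτ : IsHom M N τ) :
    ∃ L : (M.R → ZMod 2) →ₗ[ZMod 2] (N.R → ZMod 2), ∀ e, N.col (τ e) = L (M.col e) := by
  classical
  have : Fintype M.E := Fintype.ofFinite _
  set Φ : (M.E → ZMod 2) →ₗ[ZMod 2] (M.R → ZMod 2) := Fintype.linearCombination (ZMod 2) M.col
    with hΦ
  set Ψ : (M.E → ZMod 2) →ₗ[ZMod 2] (N.R → ZMod 2) :=
    Fintype.linearCombination (ZMod 2) (fun e => N.col (τ e)) with hΨ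
  have key : ∀ {R : Type} (v : M.E → (R → ZMod 2)) (g : M.E → ZMod 2),
      Fintype.linearCombination (ZMod 2) v g =
        ∑ e ∈ Finset.univ.filter (fun e => g e = 1), v e := by
    intro R v g
    rw [Fintype.linearCombination_apply, Finset.sum_filter]
    refine Finset.sum_congr rfl fun e _ => ?_
    have h2 : g e = 0 ∨ g e = 1 := by
      generalize g e = x
      revert x
      decide
    rcases h2 with h2 | h2
    · rw [h2, zero_smul, if_neg (by decide)]
    · rw [h2, one_smul, if_pos rfl]
  have hker : LinearMap.ker Φ ≤ LinearMap.ker Ψ := by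
    intro g hg
    rw [LinearMap.mem_ker, hΦ, key] at hg
    rw [LinearMap.mem_ker, hΨ, key]
    exact hom_sum hτ _ hg
  let L₀ : LinearMap.range Φ →ₗ[ZMod 2] (N.R → ZMod 2) :=
    ((LinearMap.ker Φ).liftQ Ψ hker).comp (Φ.quotKerEquivRange.symm : _ →ₗ[ZMod 2] _)
  obtain ⟨L, hL⟩ := L₀.exists_extend
  refine ⟨L, fun e => ?_⟩
  have h1 : Φ (Pi.single e 1) = M.col e := by
    rw [hΦ, Fintype.linearCombination_apply_single, one_smul]
  have h2 : Ψ (Pi.single e 1) = N.col (τ e) := by
    rw [hΨ, Fintype.linearCombination_apply_single, one_smul]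
  have h3 : L (Φ (Pi.single e 1)) = Ψ (Pi.single e 1) := by
    have h4 := LinearMap.congr_fun hL ⟨Φ (Pi.single e 1), LinearMap.mem_range_self _ _⟩
    rw [LinearMap.comp_apply, Submodule.subtype_apply] at h4
    rw [h4]
    change ((LinearMap.ker Φ).liftQ Ψ hker) (Φ.quotKerEquivRange.symm
      ⟨Φ (Pi.single e 1), LinearMap.mem_range_self _ _⟩) = _
    have h5 : Φ.quotKerEquivRange.symm ⟨Φ (Pi.single e 1), LinearMap.mem_range_self _ _⟩ =
        (LinearMap.ker Φ).mkQ (Pi.single e 1) := by
      rw [LinearEquiv.symm_apply_eq]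
      rfl
    rw [h5]
    rfl
  rw [← h2, ← h3, h1]

theorem isHom_of_linear {τ : M.E → N.E} (L : (M.R → ZMod 2) →ₗ[ZMod 2] (N.R → ZMod 2))
    (h : ∀ e, N.col (τ e) = L (M.col e)) : IsHom M N τ := by
  intro Z hZ
  rw [Finset.sum_congr rfl fun e _ => h e, ← map_sum, circuit_sum hZ, map_zero]

theorem isHom_comp {P : BinMat} {τ : M.E → N.E} {σ : N.E → P.E} (hσ : IsHom N P σ)
    (hτ : IsHom M N τ) : IsHom M P (σ ∘ τ) := by
  obtain ⟨L, hL⟩ := hom_linear hτ
  obtain ⟨L', hL'⟩ := hom_linear hσ
  refine isHom_of_linear (L'.comp L) fun e => ?_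
  rw [Function.comp_apply, hL', hL]
  rfl

theorem isHom_id : IsHom N N id := isHom_of_linear LinearMap.id fun _ => rfl

theorem zmod_cases (x : ZMod 2) : x = 0 ∨ x = 1 := by
  revert x
  decide

/-! ### Retractions -/

/-- Composition with a homomorphism maps adjacent colourings to adjacent or equal ones. -/
theorem adj_comp {P : BinMat} {σ : N.E → P.E} (hσ : IsHom N P σ)
    {τ τ' : {τ : M.E → N.E // IsHom M N τ}} (h : (Col M N).Adj τ τ') :
    (Col M P).Reachable ⟨σ ∘ τ.1, isHom_comp hσ τ.2⟩ ⟨σ ∘ τ'.1, isHom_comp hσ τ'.2⟩ := by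
  obtain ⟨L, hL⟩ := hom_linear hσ
  obtain ⟨-, C, hC, c, h1, h2⟩ := h
  by_cases heq : (⟨σ ∘ τ.1, isHom_comp hσ τ.2⟩ : {τ : M.E → P.E // IsHom M P τ}) =
      ⟨σ ∘ τ'.1, isHom_comp hσ τ'.2⟩
  · rw [heq]
  · apply SimpleGraph.Adj.reachable
    refine ⟨heq, C, hC, L c, fun e he => ?_, fun e he => ?_⟩
    · change P.col (σ (τ'.1 e)) = P.col (σ (τ.1 e)) + L c
      rw [hL, hL, h1 e he, map_add]
    · change σ (τ'.1 e) = σ (τ.1 e)
      rw [h2 e he]

theorem reachable_comp {P : BinMat} {σ : N.E → P.E} (hσ : IsHom N P σ)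
    {τ τ' : {τ : M.E → N.E // IsHom M N τ}} (h : (Col M N).Reachable τ τ') :
    (Col M P).Reachable ⟨σ ∘ τ.1, isHom_comp hσ τ.2⟩ ⟨σ ∘ τ'.1, isHom_comp hσ τ'.2⟩ := by
  obtain ⟨p⟩ := h
  induction p with
  | nil => exact SimpleGraph.Reachable.refl _
  | cons hadj _ ih => exact (adj_comp hσ hadj).trans ih

/-- A retract of a matroid with trivial recolouring has trivial recolouring. -/
theorem trivial_retract {r : N.E → N.E} (hr : IsHom N N r) (hrr : ∀ f, r (r f) = r f)
    (h : RecolTrivial N) : RecolTrivial (restrict N (Set.range r)) := by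
  intro M τ τ'
  -- the inclusion and the retraction
  have hinc : IsHom (restrict N (Set.range r)) N Subtype.val :=
    isHom_of_linear LinearMap.id fun e => rfl
  have hret : IsHom N (restrict N (Set.range r)) (fun f => ⟨r f, f, rfl⟩) := by
    obtain ⟨L, hL⟩ := hom_linear hr
    exact isHom_of_linear L hL
  have h1 := reachable_comp hret (h M ⟨_, isHom_comp hinc τ.2⟩ ⟨_, isHom_comp hinc τ'.2⟩)
  have h2 : ∀ σ : {τ : M.E → (restrict N (Set.range r)).E // IsHom M _ τ},
      (⟨(fun f => (⟨r f, f, rfl⟩ : (restrict N (Set.range r)).E)) ∘ (Subtype.val ∘ σ.1),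
        isHom_comp hret (isHom_comp hinc σ.2)⟩ : {τ : M.E → _ // IsHom M _ τ}) = σ := by
    intro σ
    apply Subtype.ext
    funext e
    apply Subtype.ext
    change r (σ.1 e).1 = (σ.1 e).1
    obtain ⟨f, hf⟩ := (σ.1 e).2
    rw [← hf, hrr]
  have h3 := h2 τ
  have h4 := h2 τ'
  rw [← h3, ← h4]
  exact h1

/-- A linear functional `h` and a vector `c` with `h c = 1` such that adding `c` on the support of
`h` stays inside `N` give a dismantling retraction. -/
theorem exists_dismantling {h : (N.R → ZMod 2) →ₗ[ZMod 2] ZMod 2} {c : N.R → ZMod 2}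
    (hc : h c = 1) {f₀ : N.E} (hf₀ : h (N.col f₀) = 1)
    (hstay : ∀ f, h (N.col f) = 1 → ∃ f', N.col f' = N.col f + c) :
    ∃ r, IsDismantling N r := by
  classical
  -- choose a functional with minimal support
  have hne : ∃ C : Set N.E, ∃ g : (N.R → ZMod 2) →ₗ[ZMod 2] ZMod 2, g c = 1 ∧
      C = {f | g (N.col f) = 1} ∧ C ⊆ {f | h (N.col f) = 1} := ⟨_, h, hc, rfl, subset_rfl⟩
  obtain ⟨C₀, hC₀⟩ := hne
  obtain ⟨C, -, hC⟩ := exists_minimal_le_of_wellFoundedLT
    (fun C : Set N.E => ∃ g : (N.R → ZMod 2) →ₗ[ZMod 2] ZMod 2, g c = 1 ∧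
      C = {f | g (N.col f) = 1} ∧ C ⊆ {f | h (N.col f) = 1}) C₀ hC₀
  obtain ⟨g, hgc, hCg, hCsub⟩ := hC.prop
  have hgstay : ∀ f, g (N.col f) = 1 → ∃ f', N.col f' = N.col f + c := by
    intro f hf
    apply hstay
    exact hCsub (by rw [hCg]; exact hf)
  obtain ⟨f₁, hf₁⟩ := hstay f₀ hf₀
  have hCne : C.Nonempty := by
    rw [hCg]
    have h1 : g (N.col f₀) + g (N.col f₁) = 1 := by
      rw [← map_add, hf₁, ← add_assoc, add_self, zero_add, hgc]
    rcases zmod_cases (g (N.col f₀)) with h2 | h2
    · rw [h2, zero_add] at h1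
      exact ⟨f₁, h1⟩
    · exact ⟨f₀, h2⟩
  have hcoc : IsCocircuit N C := by
    refine ⟨⟨hCne, g, hCg⟩, ?_⟩
    rintro D ⟨hDne, k, hDk⟩ hDC
    rcases zmod_cases (k c) with hk | hk
    · -- then `g + k` has smaller support
      exfalso
      have hE : C \ D = {f | (g + k) (N.col f) = 1} := by
        ext f
        rw [hCg, hDk]
        change (g (N.col f) = 1 ∧ ¬ k (N.col f) = 1) ↔ g (N.col f) + k (N.col f) = 1
        have hsub : k (N.col f) = 1 → g (N.col f) = 1 := by
          intro h1
          have : f ∈ C := hDC (by rw [hDk]; exact h1)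
          rw [hCg] at this
          exact this
        rcases zmod_cases (g (N.col f)) with h1 | h1 <;> rcases zmod_cases (k (N.col f)) with h2 | h2
        · rw [h1, h2]
          decide
        · exact absurd (hsub h2) (by rw [h1]; decide)
        · rw [h1, h2]
          decide
        · rw [h1, h2]
          decide
      have h1 := hC.le_of_le (y := C \ D) ⟨g + k, by
        rw [LinearMap.add_apply, hgc, hk, add_zero], hE, Set.sdiff_subset.trans hCsub⟩
        Set.sdiff_subset
      obtain ⟨d, hd⟩ := hDne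
      exact (h1 (hDC hd)).2 hd
    · exact hC.le_of_le ⟨k, hk, hDk, hDC.trans hCsub⟩ hDC
  -- the retraction
  have hex : ∀ f, ∃ f', N.col f' = N.col f + g (N.col f) • c := by
    intro f
    rcases zmod_cases (g (N.col f)) with h1 | h1
    · exact ⟨f, by rw [h1, zero_smul, add_zero]⟩
    · obtain ⟨f', hf'⟩ := hgstay f h1
      exact ⟨f', by rw [h1, one_smul, hf']⟩
  choose r hr using hex
  have hrhom : IsHom N N r := isHom_of_linear (LinearMap.id + g.smulRight c) fun f => hr f
  have hrr : ∀ f, r (r f) = r f := by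
    intro f
    apply N.inj
    rw [hr (r f), hr f, map_add, map_smul, hgc, smul_eq_mul, mul_one]
    rcases zmod_cases (g (N.col f)) with h1 | h1
    · rw [h1]
      simp
    · rw [h1]
      have : (1 : ZMod 2) + 1 = 0 := by decide
      rw [this]
      simp
  refine ⟨r, hrr, hrhom, isHom_id, ?_, C, hcoc, c, ?_, ?_⟩
  · intro heq
    obtain ⟨f, hf⟩ := hCne
    rw [hCg] at hf
    have hf' : g (N.col f) = 1 := hf
    have h1 : r f = f := (congrFun (congrArg Subtype.val heq) f).symm
    have h2 := hr f
    rw [h1, hf', one_smul] at h2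
    have h3 : c = 0 := by
      have := h2.symm
      simpa using this
    rw [h3, map_zero] at hgc
    exact absurd hgc (by decide)
  · intro e he
    rw [hCg] at he
    have he' : g (N.col e) = 1 := he
    change N.col (r e) = N.col e + c
    rw [hr e, he', one_smul]
  · intro e he
    rw [hCg] at he
    have he' : g (N.col e) = 0 := (zmod_cases _).resolve_right he
    apply N.inj
    change N.col (r e) = N.col e
    rw [hr e, he', zero_smul, add_zero]

/-! ### The product -/

/-- the product of `N` with itself -/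
def prod (N : BinMat) : BinMat where
  E := N.E × N.E
  R := N.R ⊕ N.R
  finE := inferInstance
  finR := inferInstance
  col e := Sum.elim (N.col e.1) (N.col e.2)
  inj := by
    rintro ⟨a, b⟩ ⟨c, d⟩ h
    refine Prod.ext (N.inj ?_) (N.inj ?_)
    · ext i
      exact congrFun h (Sum.inl i)
    · ext i
      exact congrFun h (Sum.inr i)

theorem isHom_fst (N : BinMat) : IsHom (prod N) N Prod.fst :=
  isHom_of_linear (LinearMap.funLeft (ZMod 2) (ZMod 2) Sum.inl) fun _ => rfl

theorem isHom_snd (N : BinMat) : IsHom (prod N) N Prod.snd :=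
  isHom_of_linear (LinearMap.funLeft (ZMod 2) (ZMod 2) Sum.inr) fun _ => rfl

/-- the homomorphisms that are an automorphism composed with the first projection -/
def Good (N : BinMat) (σ : (prod N).E → N.E) : Prop :=
  ∃ ψ ψ' : N.E → N.E, IsHom N N ψ ∧ IsHom N N ψ' ∧ (∀ f, ψ' (ψ f) = f) ∧ (∀ f, ψ (ψ' f) = f) ∧
    ∀ e : N.E × N.E, σ e = ψ e.1

/-- the neighbours of the first projection -/
theorem good_of_adj (hstiff : ¬ ∃ r, IsDismantling N r) {σ : (prod N).E → N.E} {C : Set (prod N).E}
    (hC : IsCocircuit (prod N) C) {c : N.R → ZMod 2}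
    (h1 : ∀ e ∈ C, N.col (σ e) = N.col e.1 + c) (h2 : ∀ e ∉ C, σ e = e.1) : Good N σ := by
  classical
  obtain ⟨-, h, hCh⟩ := hC.prop
  -- the two components of the functional
  let ha : (N.R → ZMod 2) →ₗ[ZMod 2] ZMod 2 :=
    h.comp ((LinearEquiv.sumArrowLequivProdArrow N.R N.R (ZMod 2) (ZMod 2)).symm.toLinearMap.comp
      (LinearMap.inl (ZMod 2) _ _))
  let hb : (N.R → ZMod 2) →ₗ[ZMod 2] ZMod 2 :=
    h.comp ((LinearEquiv.sumArrowLequivProdArrow N.R N.R (ZMod 2) (ZMod 2)).symm.toLinearMap.comp
      (LinearMap.inr (ZMod 2) _ _))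
  have hsplit : ∀ f g : N.E, h ((prod N).col (f, g)) = ha (N.col f) + hb (N.col g) := by
    intro f g
    change _ = h _ + h _
    rw [← map_add]
    congr 1
    ext i
    rcases i with i | i
    · change N.col f i = N.col f i + 0
      rw [add_zero]
    · change N.col g i = 0 + N.col g i
      rw [zero_add]
  have hσ : ∀ f g : N.E, N.col (σ (f, g)) = N.col f + (ha (N.col f) + hb (N.col g)) • c := by
    intro f g
    by_cases he : ((f, g) : (prod N).E) ∈ C
    · have h3 := h1 _ he
      rw [hCh] at he
      have he' : h ((prod N).col (f, g)) = 1 := he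
      rw [hsplit] at he'
      rw [h3, he', one_smul]
    · have h3 := h2 _ he
      rw [hCh] at he
      have he' : h ((prod N).col (f, g)) = 0 := (zmod_cases _).resolve_right he
      rw [hsplit] at he'
      rw [h3, he', zero_smul, add_zero]
  by_cases hc0 : c = 0
  · refine ⟨id, id, isHom_id, isHom_id, fun _ => rfl, fun _ => rfl, ?_⟩
    rintro ⟨f, g⟩
    apply N.inj
    rw [hσ, hc0, smul_zero, add_zero]
    rfl
  by_cases hconst : ∀ g g' : N.E, hb (N.col g) = hb (N.col g')
  · -- the functional does not depend on the second coordinate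
    obtain ⟨k, hk⟩ : ∃ k : (N.R → ZMod 2) →ₗ[ZMod 2] ZMod 2,
        ∀ f g : N.E, ha (N.col f) + hb (N.col g) = k (N.col f) := by
      by_cases hz : ∃ g, hb (N.col g) = 1
      · obtain ⟨g₀, hg₀⟩ := hz
        refine ⟨ha + hb, fun f g => ?_⟩
        rw [LinearMap.add_apply, hconst g f]
      · push Not at hz
        refine ⟨ha, fun f g => ?_⟩
        rw [(zmod_cases _).resolve_right (hz g), add_zero]
    have hcol : ∀ f g : N.E, N.col (σ (f, g)) = N.col f + k (N.col f) • c := by
      intro f g
      rw [hσ, hk]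
    by_cases hkz : ∃ f, k (N.col f) = 1
    · obtain ⟨f₀, hf₀⟩ := hkz
      have hkc : k c = 0 := by
        refine (zmod_cases _).resolve_right fun hkc => hstiff ?_
        apply exists_dismantling hkc hf₀
        intro f hf
        exact ⟨σ (f, f), by rw [hcol, hf, one_smul]⟩
      have hhom : IsHom N N fun f => σ (f, f) :=
        isHom_of_linear (LinearMap.id + k.smulRight c) fun f => hcol f f
      have hinv : ∀ f, σ (σ (f, f), σ (f, f)) = f := by
        intro f
        apply N.inj
        rw [hcol, hcol, map_add, map_smul, hkc, smul_zero, add_zero, add_assoc, ← add_smul]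
        have : k (N.col f) + k (N.col f) = 0 := CharTwo.add_self_eq_zero _
        rw [this, zero_smul, add_zero]
      refine ⟨fun f => σ (f, f), fun f => σ (f, f), hhom, hhom, hinv, hinv, ?_⟩
      rintro ⟨f, g⟩
      apply N.inj
      rw [hcol, hcol]
    · push Not at hkz
      refine ⟨id, id, isHom_id, isHom_id, fun _ => rfl, fun _ => rfl, ?_⟩
      rintro ⟨f, g⟩
      apply N.inj
      rw [hcol, (zmod_cases _).resolve_right (hkz f), zero_smul, add_zero]
      rfl
  · -- translation by `c` preserves `N`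
    exfalso
    push Not at hconst
    obtain ⟨g, g', hgg⟩ := hconst
    have htrans : ∀ f, ∃ f', N.col f' = N.col f + c := by
      intro f
      by_cases h3 : ha (N.col f) + hb (N.col g) = 1
      · exact ⟨σ (f, g), by rw [hσ, h3, one_smul]⟩
      · refine ⟨σ (f, g'), ?_⟩
        have h4 : ha (N.col f) + hb (N.col g') = 1 := by
          revert h3 hgg
          generalize ha (N.col f) = x
          generalize hb (N.col g) = y
          generalize hb (N.col g') = z
          revert x y z
          decide
        rw [hσ, h4, one_smul]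
    obtain ⟨i, hi⟩ : ∃ i, c i ≠ 0 := by
      by_contra hcon
      push Not at hcon
      exact hc0 (funext hcon)
    have hi1 : c i = 1 := (zmod_cases _).resolve_left hi
    obtain ⟨f₁, hf₁⟩ := htrans g
    apply hstiff
    by_cases hgi : N.col g i = 1
    · exact exists_dismantling (h := LinearMap.proj i) (c := c) hi1 (f₀ := g) hgi
        (fun f _ => htrans f)
    · refine exists_dismantling (h := LinearMap.proj i) (c := c) hi1 (f₀ := f₁) ?_
        (fun f _ => htrans f)
      have h3 : N.col g i = 0 := (zmod_cases _).resolve_right hgi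
      change N.col f₁ i = 1
      rw [hf₁, Pi.add_apply, h3, hi1, zero_add]

theorem good_step (hstiff : ¬ ∃ r, IsDismantling N r)
    {σ σ' : {τ : (prod N).E → N.E // IsHom (prod N) N τ}} (hσ : Good N σ.1)
    (hadj : (Col (prod N) N).Adj σ σ') : Good N σ'.1 := by
  obtain ⟨ψ, ψ', hψ, hψ', h1, h2, h3⟩ := hσ
  obtain ⟨-, C, hC, c, h4, h5⟩ := hadj
  obtain ⟨L, hL⟩ := hom_linear hψ'
  have a2 : ∀ e : (prod N).E, ψ' (σ.1 e) = Prod.fst e := by
    intro e
    have a1 : σ.1 e = ψ (Prod.fst e) := h3 e
    rw [a1]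
    exact h1 _
  have key : Good N (ψ' ∘ σ'.1) := by
    refine good_of_adj hstiff hC (c := L c) ?_ ?_
    · intro e he
      change N.col (ψ' (σ'.1 e)) = _
      rw [hL, h4 e he, map_add, ← hL, a2]
    · intro e he
      change ψ' (σ'.1 e) = _
      rw [h5 e he]
      exact a2 e
  obtain ⟨φ, φ', hφ, hφ', g1, g2, g3⟩ := key
  refine ⟨ψ ∘ φ, φ' ∘ ψ', isHom_comp hψ hφ, isHom_comp hφ' hψ', ?_, ?_, ?_⟩
  · intro f
    rw [Function.comp_apply, Function.comp_apply, h1, g1]
  · intro f
    rw [Function.comp_apply, Function.comp_apply, g2, h2]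
  · intro e
    have a3 : ψ' (σ'.1 e) = φ e.1 := g3 e
    change σ'.1 e = ψ (φ e.1)
    rw [← a3]
    exact (h2 _).symm

theorem good_reachable (hstiff : ¬ ∃ r, IsDismantling N r)
    {σ σ' : {τ : (prod N).E → N.E // IsHom (prod N) N τ}} (hσ : Good N σ.1)
    (h : (Col (prod N) N).Reachable σ σ') : Good N σ'.1 := by
  obtain ⟨p⟩ := h
  induction p with
  | nil => exact hσ
  | cons hadj _ ih => exact ih (good_step hstiff hσ hadj)

/-- A matroid with trivial recolouring and no dismantling retraction has at most one element. -/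
theorem subsingleton_of_stiff (hstiff : ¬ ∃ r, IsDismantling N r) (h : RecolTrivial N) :
    ∀ f g : N.E, f = g := by
  have h1 : Good N (Prod.fst : N.E × N.E → N.E) :=
    ⟨id, id, isHom_id, isHom_id, fun _ => rfl, fun _ => rfl, fun _ => rfl⟩
  have h2 : Good N (Prod.snd : N.E × N.E → N.E) :=
    good_reachable (σ := ⟨Prod.fst, isHom_fst N⟩) (σ' := ⟨Prod.snd, isHom_snd N⟩) hstiff h1
      (h (prod N) _ _)
  obtain ⟨ψ, -, -, -, -, -, h3⟩ := h2
  intro f g
  have h4 := h3 (f, f)
  have h5 := h3 (f, g)
  exact h4.trans h5.symm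

theorem isCircuit_unique {M : BinMat} [Unique M.E] (Z : Finset M.E) :
    IsCircuit M Z ↔ Z = {default} ∧ M.col default = 0 := by
  classical
  have hZ : ∀ Z : Finset M.E, Z.Nonempty → Z = {default} := by
    intro Z hZ
    obtain ⟨z, hz⟩ := hZ
    ext x
    rw [Finset.mem_singleton, Subsingleton.elim x default]
    simp only [iff_true]
    rwa [← Subsingleton.elim z default]
  constructor
  · intro h
    have h1 := hZ Z h.prop.1
    refine ⟨h1, ?_⟩
    have h2 := h.prop.2
    rwa [h1, Finset.sum_singleton] at h2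
  · rintro ⟨rfl, h0⟩
    refine ⟨⟨Finset.singleton_nonempty _, by rw [Finset.sum_singleton, h0]⟩, ?_⟩
    rintro Y ⟨hY, -⟩ -
    rw [hZ Y hY]

theorem iso_of_unique {M N : BinMat} [Unique M.E] [Unique N.E]
    (h : M.col default = 0 ↔ N.col default = 0) : Iso M N := by
  classical
  refine ⟨Equiv.ofUnique M.E N.E, fun Z => ?_⟩
  rw [isCircuit_unique, isCircuit_unique, h]
  have h1 : Z = {default} ↔ Z.map (Equiv.ofUnique M.E N.E).toEmbedding = {default} := by
    have h2 : ({default} : Finset N.E) =
        ({default} : Finset M.E).map (Equiv.ofUnique M.E N.E).toEmbedding := by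
      rw [Finset.map_singleton]
      congr 1
    rw [h2, Finset.map_inj]
  rw [h1]

/-- **If the recolouring problem of a non-empty binary matroid `N` is trivial, then `N` dismantles
to the loop or to the edge.** -/
theorem result (N : BinMat) (hN : Nonempty N.E) (h : RecolTrivial N) :
    Dismantles N loop ∨ Dismantles N edge := by
  classical
  induction hn : Nat.card N.E using Nat.strong_induction_on generalizing N with
  | _ n ih =>
    by_cases hstiff : ∃ r, IsDismantling N r
    · obtain ⟨r, hr⟩ := hstiff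
      have hrr := hr.1
      obtain ⟨hrhom, hid, hadj⟩ := hr.2
      have hlt : Nat.card (restrict N (Set.range r)).E < n := by
        rw [← hn]
        change Nat.card (Set.range r) < Nat.card N.E
        rw [Nat.card_coe_set_eq, ← Set.ncard_univ]
        apply Set.ncard_lt_ncard _ (Set.toFinite _)
        refine ⟨Set.subset_univ _, fun hsub => hadj.1 ?_⟩
        apply Subtype.ext
        funext f
        obtain ⟨g, hg⟩ := hsub (Set.mem_univ f)
        change f = r f
        rw [← hg, hrr]
      have hne : Nonempty (restrict N (Set.range r)).E := by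
        obtain ⟨f⟩ := hN
        exact ⟨⟨r f, f, rfl⟩⟩
      rcases ih _ hlt _ hne (trivial_retract hrhom hrr h) rfl with h1 | h1
      · exact Or.inl (Dismantles.step r hr h1)
      · exact Or.inr (Dismantles.step r hr h1)
    · have hsub := subsingleton_of_stiff hstiff h
      obtain ⟨f⟩ := hN
      have : Unique N.E := ⟨⟨f⟩, fun g => hsub g f⟩
      have hl : Unique loop.E := inferInstanceAs (Unique Unit)
      have he : Unique edge.E := inferInstanceAs (Unique Unit)
      by_cases h0 : N.col default = 0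
      · left
        apply Dismantles.iso
        apply iso_of_unique
        exact iff_of_true h0 rfl
      · right
        apply Dismantles.iso
        apply iso_of_unique
        refine iff_of_false h0 ?_
        intro h1
        have h2 : (1 : ZMod 2) = 0 := congrFun h1 ()
        exact absurd h2 (by decide)

end Pool.Agent.Results.MP_ea4033_co.TrivialRecolouring
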